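import Mathlib

set_option autoImplicit false

namespace Pool.Agent.Results.MP_130e73_co.Q1
open Finset SimpleGraph Filter Topology

def Dom {V : Type} (G : SimpleGraph V) (S : Finset V) : Prop :=
  ∀ v, v ∉ S → ∃ u ∈ S, G.Adj v u

open Classical in
/-- `d(G,i)`: the number of dominating sets with `i` elements -/
noncomputable def dnum {V : Type} [Fintype V] (G : SimpleGraph V) (i : ℕ) : ℕ :=
  (univ.filter (fun S : Finset V => Dom G S ∧ S.card = i)).card

/-- the domination polynomial, evaluated at a real number -/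
noncomputable def D {V : Type} [Fintype V] (G : SimpleGraph V) (x : ℝ) : ℝ :=
  ∑ i ∈ Icc 1 (Fintype.card V), (dnum G i : ℝ) * x ^ i

noncomputable def ind (p : Prop) (y : ℝ) : ℝ := @ite _ p (Classical.propDecidable p) y 0

open Classical in
lemma D_eq {n : ℕ} (G : SimpleGraph (Fin (n + 1))) (x : ℝ) : D G x =
    ∑ f : Fin (n + 1) → Bool, ind (∀ v, f v = true ∨ ∃ u, f u = true ∧ G.Adj v u)
      (∏ i, (if f i then x else 1)) := by
  have h1 : D G x = ∑ S ∈ univ.filter (fun S : Finset (Fin (n + 1)) => Dom G S), x ^ S.card := by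
    rw [← sum_fiberwise_of_maps_to (t := Icc 1 (Fintype.card (Fin (n + 1)))) (g := card)]
    · refine sum_congr rfl fun i _ => ?_
      rw [sum_congr rfl (g := fun _ => x ^ i) (fun S hS => by rw [(mem_filter.1 hS).2]),
        sum_const, filter_filter, nsmul_eq_mul]
      rfl
    · intro S hS
      refine mem_Icc.2 ⟨card_pos.2 ?_, card_le_univ _⟩
      by_cases h : (0 : Fin (n + 1)) ∈ S
      · exact ⟨_, h⟩
      · obtain ⟨u, hu, _⟩ := (mem_filter.1 hS).2 0 h
        exact ⟨u, hu⟩
  rw [h1, sum_filter]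
  symm
  refine Fintype.sum_bijective (fun f : Fin (n + 1) → Bool => univ.filter (fun i => f i = true))
    ⟨fun f g h => ?_, fun S => ⟨fun i => decide (i ∈ S), by ext i; simp⟩⟩ _ _ (fun f => ?_)
  · funext i
    have := Finset.ext_iff.1 h i
    simp only [mem_filter, mem_univ, true_and] at this
    exact Bool.eq_iff_iff.2 this
  · have e : (∀ v, f v = true ∨ ∃ u, f u = true ∧ G.Adj v u) ↔
        Dom G (univ.filter (fun i => f i = true)) := by
      simp only [Dom, mem_filter, mem_univ, true_and, or_iff_not_imp_left]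
    rw [prod_ite, prod_const, prod_const_one, mul_one, e]
    rfl

def ex (a b c d : Bool) {n : ℕ} (f : Fin n → Bool) : ℕ → Bool
  | 0 => a
  | 1 => b
  | i + 2 => if h : i < n then f ⟨i, h⟩ else if i = n then c else d

lemma ex_cons (a b c d t : Bool) {n : ℕ} (f : Fin n → Bool) (i : ℕ) :
    ex a b c d (Fin.cons t f : Fin (n + 1) → Bool) (i + 1) = ex b t c d f i := by
  match i with
  | 0 => rfl
  | 1 => simp [ex]
  | i + 2 =>
    simp only [ex, Nat.add_lt_add_iff_right, Nat.add_right_cancel_iff]
    split_ifs <;> rfl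

def OK (a b c d : Bool) {n : ℕ} (f : Fin n → Bool) : Prop :=
  ∀ i < n + 2, ex a b c d f i = true ∨ ex a b c d f (i + 1) = true ∨ ex a b c d f (i + 2) = true

lemma OK_cons (a b c d t : Bool) {n : ℕ} (f : Fin n → Bool) :
    OK a b c d (Fin.cons t f : Fin (n + 1) → Bool) ↔
      (a = true ∨ b = true ∨ t = true) ∧ OK b t c d f := by
  unfold OK
  rw [Nat.forall_lt_succ_left]
  simp only [Nat.add_right_comm _ 1 2, ex_cons]
  exact and_congr Iff.rfl Iff.rfl

noncomputable def T (x : ℝ) (c d : Bool) : ℕ → Bool → Bool → ℝ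
  | 0, a, b => if (a = true ∨ b = true ∨ c = true) ∧ (b = true ∨ c = true ∨ d = true) then 1 else 0
  | n + 1, a, b => x * T x c d n b true + if a = true ∨ b = true then T x c d n b false else 0

lemma T_eq (x : ℝ) (c d : Bool) (n : ℕ) : ∀ a b, T x c d n a b =
    ∑ f : Fin n → Bool, ind (OK a b c d f) (∏ i, (if f i then x else 1)) := by
  unfold ind
  classical
  induction n with
  | zero =>
    intro a b
    rw [Fintype.sum_unique, T]
    refine if_congr ?_ (by simp) rfl
    unfold OK
    rw [Nat.forall_lt_succ_left, Nat.forall_lt_succ_left]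
    simp [ex]
  | succ n ih =>
    intro a b
    rw [← (Fin.consEquiv (fun _ : Fin (n + 1) => Bool)).sum_comp, Fintype.sum_prod_type,
      Fintype.sum_bool, T, ih, ih, mul_sum]
    congr 1
    · refine sum_congr rfl fun f _ => ?_
      show _ = if OK a b c d (Fin.cons true f : Fin (n + 1) → Bool) then
        ∏ i, (if (Fin.cons true f : Fin (n + 1) → Bool) i then x else 1) else 0
      rw [OK_cons, Fin.prod_univ_succ]
      simp
    · have : ∀ f : Fin n → Bool, (if OK a b c d (Fin.cons false f : Fin (n + 1) → Bool) then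
          ∏ i, (if (Fin.cons false f : Fin (n + 1) → Bool) i then x else 1) else 0) =
          if a = true ∨ b = true then
            (if OK b false c d f then ∏ i, (if f i then x else 1) else 0) else 0 := by
        intro f
        rw [OK_cons, Fin.prod_univ_succ]
        by_cases h : a = true ∨ b = true <;> simp [h]
      refine Eq.trans ?_ (sum_congr rfl fun f _ => (this f).symm)
      split_ifs <;> simp

lemma T_rec (x : ℝ) (c d : Bool) (n : ℕ) : ∀ a b, T x c d (n + 3) a b =
    x * (T x c d (n + 2) a b + T x c d (n + 1) a b + T x c d n a b) := by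
  induction n with
  | zero => intro a b; cases a <;> cases b <;> cases c <;> cases d <;> simp [T] <;> ring_nf <;> simp
  | succ n ih =>
    intro a b
    rw [T, ih, ih, T.eq_2 x c d a b (n + 2), T.eq_2 x c d a b (n + 1), T.eq_2 x c d a b n]
    split_ifs <;> ring

lemma path_eq (n : ℕ) (x : ℝ) : D (pathGraph (n + 1)) x = T x false true (n + 1) true false := by
  rw [D_eq, T_eq]
  refine sum_congr rfl fun f _ => congrArg (fun p => ind p _) (propext ?_)
  have hv : ∀ u : Fin (n + 1), ex true false false true f (u + 2) = f u := fun u => by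
    simp only [ex, u.2, dite_true]
  constructor
  · intro h i hi
    match i with
    | 0 => exact Or.inl rfl
    | i + 1 =>
      by_cases e : i = n + 1
      · right; right; simp [ex, e]
      · rcases h ⟨i, by omega⟩ with h | ⟨u, hu, h⟩
        · exact Or.inr (Or.inl ((hv ⟨i, by omega⟩).trans h))
        · rw [← hv] at hu
          rcases pathGraph_adj.1 h with h | h
          · simp only at h
            exact Or.inr (Or.inr (by rw [h]; exact hu))
          · simp only at h
            exact Or.inl (by rw [← h]; exact hu)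
  · intro h v
    rcases h (v + 1) (by omega) with h | h | h
    · obtain ⟨v, hv'⟩ := v
      match v with
      | 0 => exact absurd h (by simp [ex])
      | v + 1 => exact Or.inr ⟨⟨v, by omega⟩, (hv ⟨v, by omega⟩).symm.trans h, pathGraph_adj.2 (Or.inr rfl)⟩
    · exact Or.inl ((hv v).symm.trans h)
    · by_cases e : (v : ℕ) = n
      · exact absurd h (by simp [ex, e])
      · exact Or.inr ⟨⟨v + 1, by omega⟩, (hv ⟨v + 1, by omega⟩).symm.trans h,
          pathGraph_adj.2 (Or.inl rfl)⟩

lemma cyc_eq (n : ℕ) (x : ℝ) : D (cycleGraph (n + 2)) x =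
    x * x * T x true true n true true + x * T x true false n true false +
      (x * T x false true n false true + T x false false n false false) := by
  rw [D_eq, ← (Fin.consEquiv (fun _ : Fin (n + 2) => Bool)).sum_comp, Fintype.sum_prod_type]
  have key : ∀ a b (l : Fin n → Bool) (f : Fin (n + 2) → Bool),
      f = Fin.cons a (Fin.cons b l : Fin (n + 1) → Bool) →
      ((∀ v, f v = true ∨ ∃ u, f u = true ∧ (cycleGraph (n + 2)).Adj v u) ↔ OK a b a b l) := by
    intro a b l f hf
    have hF : ∀ i < n + 4, ex a b a b l i = f ⟨i % (n + 2), Nat.mod_lt _ (by omega)⟩ := by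
      have hh : ∀ i j (h : j < n + 2), i % (n + 2) = j →
          f ⟨i % (n + 2), Nat.mod_lt _ (by omega)⟩ = f ⟨j, h⟩ := fun i j h e => by simp only [e]
      intro i hi
      match i, hi with
      | 0, _ => rw [hh 0 0 (by omega) (Nat.zero_mod _), hf]; rfl
      | 1, _ => rw [hh 1 1 (by omega) (Nat.mod_eq_of_lt (by omega)), hf]; rfl
      | i + 2, hi =>
        simp only [ex]
        split_ifs with h1 h2
        · rw [hh _ (i + 2) (by omega) (Nat.mod_eq_of_lt (by omega)), hf]; rfl
        · rw [hh _ 0 (by omega) (by rw [h2, Nat.mod_self]), hf]; rfl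
        · rw [hh _ 1 (by omega) (by
            rw [show i + 2 = 1 + (n + 2) by omega, Nat.add_mod_right,
              Nat.mod_eq_of_lt (by omega)]), hf]; rfl
    have h3 : OK a b a b l ↔ ∀ w, f w = true ∨ f (w + 1) = true ∨ f (w + 1 + 1) = true := by
      have : ∀ w : Fin (n + 2), ex a b a b l w = f w ∧ ex a b a b l (w + 1) = f (w + 1) ∧
          ex a b a b l (w + 2) = f (w + 1 + 1) := fun w => by
        rw [hF _ (by omega), hF _ (by omega), hF _ (by omega)]
        refine ⟨congrArg f (Fin.ext (Nat.mod_eq_of_lt w.2)), congrArg f (Fin.ext ?_),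
          congrArg f (Fin.ext ?_)⟩
        · simp [Fin.val_add]
        · simp [Fin.val_add, add_assoc]
      constructor
      · intro h w
        obtain ⟨e1, e2, e3⟩ := this w
        rw [← e1, ← e2, ← e3]; exact h w w.2
      · intro h i hi
        obtain ⟨e1, e2, e3⟩ := this ⟨i, hi⟩
        simp only at e1 e2 e3
        rw [e1, e2, e3]; exact h _
    rw [h3]
    constructor
    · intro h w
      rcases h (w + 1) with h | ⟨u, hu, h⟩
      · exact Or.inr (Or.inl h)
      · rcases cycleGraph_adj.1 h with h | h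
        · have : u = w := by
            rw [sub_eq_iff_eq_add'] at h
            exact (add_right_cancel h).symm
          exact Or.inl (this ▸ hu)
        · have : u = w + 1 + 1 := sub_eq_iff_eq_add'.1 h
          exact Or.inr (Or.inr (this ▸ hu))
    · intro h v
      rcases h (v - 1) with h | h | h
      · exact Or.inr ⟨_, h, cycleGraph_adj.2 (Or.inl (sub_sub_cancel v 1))⟩
      · rw [sub_add_cancel] at h; exact Or.inl h
      · rw [sub_add_cancel] at h
        exact Or.inr ⟨_, h, cycleGraph_adj.2 (Or.inr (add_sub_cancel_left v 1))⟩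
  have h2 : ∀ a : Bool, ∀ F : (Fin (n + 1) → Bool) → ℝ, ∑ g, F g =
      ∑ l : Fin n → Bool, F (Fin.cons true l) + ∑ l : Fin n → Bool, F (Fin.cons false l) := by
    intro a F
    rw [← (Fin.consEquiv (fun _ : Fin (n + 1) => Bool)).sum_comp, Fintype.sum_prod_type,
      Fintype.sum_bool]
    rfl
  rw [Fintype.sum_bool, h2 true, h2 true, T_eq, T_eq, T_eq, T_eq, mul_sum, mul_sum, mul_sum]
  refine congrArg₂ _ (congrArg₂ _ ?_ ?_) (congrArg₂ _ ?_ ?_) <;>
    refine sum_congr rfl fun l _ => ?_ <;>
    refine (congrArg (fun p => ind p _) (propext (key _ _ l _ rfl))).trans ?_ <;>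
    rw [Fin.prod_univ_succ, Fin.prod_univ_succ] <;>
    simp [Fin.consEquiv, mul_assoc, ind]

def sq (a b c : ℚ) : ℕ → ℚ × ℚ × ℚ
  | 0 => (a, b, c)
  | n + 1 => let p := sq a b c n; (p.2.1, p.2.2, -19 / 10 * (p.2.2 + p.2.1 + p.1))

lemma gen (s : ℕ → ℝ → ℝ) (hc : ∀ n, Continuous (s n))
    (hr : ∀ n x, s (n + 3) x = x * (s (n + 2) x + s (n + 1) x + s n x)) (a b c : ℚ)
    (ha : s 0 (-19 / 10) = a) (hb : s 1 (-19 / 10) = b) (hc' : s 2 (-19 / 10) = c)
    (h0 : ∀ n < 22, (sq a b c n).1 ≠ 0)
    (h1 : 0 < (sq a b c 22).1 ∧ 138 * (sq a b c 22).1 < -100 * (sq a b c 22).2.1 ∧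
      -100 * (sq a b c 22).2.1 < 158 * (sq a b c 22).1 ∧
      -138 * (sq a b c 22).2.1 < 100 * (sq a b c 22).2.2 ∧
      100 * (sq a b c 22).2.2 < -158 * (sq a b c 22).2.1) :
    ∀ᶠ x in 𝓝 (-19 / 10 : ℝ), ∀ n, s n x ≠ 0 := by
  have e : ∀ n, s n (-19 / 10) = (sq a b c n).1 ∧ s (n + 1) (-19 / 10) = (sq a b c n).2.1 ∧
      s (n + 2) (-19 / 10) = (sq a b c n).2.2 := by
    intro n
    induction n with
    | zero => exact ⟨ha, hb, hc'⟩
    | succ n ih =>
      refine ⟨ih.2.1, ih.2.2, ?_⟩
      rw [hr, ih.1, ih.2.1, ih.2.2, sq]; push_cast; ring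
  have f0 : ∀ᶠ x in 𝓝 (-19 / 10 : ℝ), ∀ n ∈ range 22, s n x ≠ 0 :=
    (eventually_all_finset _).2 fun n hn => (hc n).continuousAt.eventually_ne (by
      rw [(e n).1]; exact_mod_cast h0 n (mem_range.1 hn))
  obtain ⟨e0, e1, e2⟩ := e 22
  obtain ⟨k0, k1, k2, k3, k4⟩ := h1
  have c0 := hc 22
  have c1 := hc (22 + 1)
  have c2 := hc (22 + 2)
  have lt : ∀ u v : ℝ → ℝ, Continuous u → Continuous v → u (-19 / 10) < v (-19 / 10) →
      ∀ᶠ x in 𝓝 (-19 / 10 : ℝ), u x < v x := fun u v hu hv h =>
    hu.continuousAt.eventually_lt hv.continuousAt h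
  filter_upwards [f0,
    lt (fun _ => 0) (s 22) (by fun_prop) c0 (by rw [e0]; exact_mod_cast k0),
    lt (fun x => 138 * s 22 x) (fun x => -100 * s (22 + 1) x) (by fun_prop) (by fun_prop)
      (by simp only [e0, e1]; exact_mod_cast k1),
    lt (fun x => -100 * s (22 + 1) x) (fun x => 158 * s 22 x) (by fun_prop) (by fun_prop)
      (by simp only [e0, e1]; exact_mod_cast k2),
    lt (fun x => -138 * s (22 + 1) x) (fun x => 100 * s (22 + 2) x) (by fun_prop) (by fun_prop)
      (by simp only [e2, e1]; exact_mod_cast k3),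
    lt (fun x => 100 * s (22 + 2) x) (fun x => -158 * s (22 + 1) x) (by fun_prop) (by fun_prop)
      (by simp only [e2, e1]; exact_mod_cast k4),
    lt (fun _ => -191 / 100) (fun x => x) (by fun_prop) (by fun_prop) (by norm_num),
    lt (fun x => x) (fun _ => -189 / 100) (by fun_prop) (by fun_prop) (by norm_num)]
    with x g0 g1 g2 g3 g4 g5 g6 g7
  let u : ℕ → ℝ := fun m => (-1) ^ m * s (22 + m) x
  have ur : ∀ m, u (m + 3) = -x * (u (m + 2) - u (m + 1) + u m) := fun m => by
    simp only [u]
    rw [show 22 + (m + 3) = 22 + m + 3 by ring, hr, show 22 + (m + 2) = 22 + m + 2 by ring,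
      show 22 + (m + 1) = 22 + m + 1 by ring]
    ring
  have ind : ∀ m, 0 < u m ∧ 138 * u m < 100 * u (m + 1) ∧ 100 * u (m + 1) < 158 * u m ∧
      138 * u (m + 1) < 100 * u (m + 2) ∧ 100 * u (m + 2) < 158 * u (m + 1) := by
    intro m
    induction m with
    | zero =>
      simp only [u]
      norm_num at g1 g2 g3 g4 g5 ⊢
      refine ⟨g1, ?_, ?_, ?_, ?_⟩ <;> linarith
    | succ m ih =>
      obtain ⟨i0, i1, i2, i3, i4⟩ := ih
      have p : 0 < u (m + 2) - u (m + 1) + u m := by linarith
      have q1 := mul_lt_mul_of_pos_right (show (189 / 100 : ℝ) < -x by linarith) p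
      have q2 := mul_lt_mul_of_pos_right (show -x < (191 / 100 : ℝ) by linarith) p
      rw [← ur] at q1 q2
      refine ⟨by linarith, i3, i4, ?_, ?_⟩
      · show 138 * u (m + 2) < 100 * u (m + 3)
        linarith
      · show 100 * u (m + 3) < 158 * u (m + 2)
        linarith
  intro n
  by_cases hn : n < 22
  · exact g0 n (mem_range.2 hn)
  · obtain ⟨m, rfl⟩ : ∃ m, n = 22 + m := ⟨n - 22, by omega⟩
    intro h
    have := (ind m).1
    simp only [u, h, mul_zero] at this
    exact lt_irrefl _ this

lemma T_cont (c d : Bool) (n : ℕ) : ∀ a b, Continuous fun x => T x c d n a b := by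
  induction n with
  | zero => intro a b; exact continuous_const
  | succ n ih =>
    intro a b
    simp only [T]
    refine (continuous_id.mul (ih _ _)).add ?_
    split_ifs
    · exact ih _ _
    · exact continuous_const

theorem result : ∃ a b : ℝ, -2 < a ∧ a < b ∧ b < 0 ∧ ∀ r ∈ Set.Ioo a b, ∀ n, 4 ≤ n →
    D (pathGraph n) r ≠ 0 ∧ D (cycleGraph n) r ≠ 0 := by
  have hP := gen (fun n x => T x false true (n + 2) true false) (fun n => T_cont _ _ _ _ _)
    (fun n x => T_rec x false true (n + 2) true false) (-19 / 100) (2071 / 1000) (361 / 10000)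
    (by simp [T]; norm_num) (by simp [T]; norm_num) (by simp [T]; norm_num)
    (by decide +kernel) (by decide +kernel)
  have hC := gen (fun n x => x * x * T x true true n true true + x * T x true false n true false +
      (x * T x false true n false true + T x false false n false false))
    (fun n => by
      have := T_cont true true n true true
      have := T_cont true false n true false
      have := T_cont false true n false true
      have := T_cont false false n false false
      fun_prop)
    (fun n x => by simp only [T_rec]; ring) (-19 / 100) (-1729 / 1000) (72561 / 10000)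
    (by simp [T]; norm_num) (by simp [T]; norm_num) (by simp [T]; norm_num)
    (by decide +kernel) (by decide +kernel)
  obtain ⟨a, b, hab, h⟩ := (hP.and (hC.and ((lt_mem_nhds (show (-2 : ℝ) < -19 / 10 by norm_num)).and
    (gt_mem_nhds (show (-19 / 10 : ℝ) < 0 by norm_num))))).exists_Ioo_subset
  have m1 : (a + -19 / 10) / 2 ∈ Set.Ioo a b := ⟨by linarith [hab.1], by linarith [hab.1, hab.2]⟩
  refine ⟨(a + -19 / 10) / 2, -19 / 10, (h m1).2.2.1, by linarith [hab.1], by norm_num, ?_⟩
  intro r hr n hn
  obtain ⟨m, rfl⟩ : ∃ m, n = m + 2 := ⟨n - 2, by omega⟩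
  have := h (show r ∈ Set.Ioo a b from ⟨by linarith [hr.1, hab.1], hr.2.trans hab.2⟩)
  exact ⟨by rw [path_eq (m + 1)]; exact this.1 m, by rw [cyc_eq]; exact this.2.1 m⟩

end Pool.Agent.Results.MP_130e73_co.Q1
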